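import Mathlib
import Pool.Agent.Helper816.KTor

/-!
# `Tor` is Koszul homology, and Betti numbers
-/

set_option autoImplicit false

open CategoryTheory Limits

namespace Pool.Agent.V11281.Bt

open Pool.Agent.Helper816.Koszul Pool.Agent.Helper816.KM Pool.Agent.Helper816.KTor

section tor

variable {S : Type} [CommRing S] {r : ℕ} (f : Fin r → S)

/-- Homology of a short complex of modules mapping injectively. -/
theorem homology_equiv (T : ShortComplex (ModuleCat.{0} S)) {Q : Type} [AddCommGroup Q]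
    [Module S Q] (Z2 B2 : Submodule S Q) (φ : T.X₂ →ₗ[S] Q)
    (hinj : Function.Injective φ)
    (h1 : ∀ u, T.g.hom u = 0 → φ u ∈ Z2)
    (h1' : ∀ z ∈ Z2, ∃ u, T.g.hom u = 0 ∧ φ u = z)
    (h2 : ∀ u, φ u ∈ B2 ↔ u ∈ LinearMap.range T.f.hom) :
    Nonempty (T.homology ≃ₗ[S] (↥Z2 ⧸ B2.submoduleOf Z2)) := by
  have e0 : T.homology ≃ₗ[S] (LinearMap.ker T.g.hom ⧸ LinearMap.range T.moduleCatToCycles) :=
    T.moduleCatHomologyIso.toLinearEquiv
  have h3 : LinearMap.range T.moduleCatToCycles =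
      (LinearMap.range T.f.hom).submoduleOf (LinearMap.ker T.g.hom) :=
    LinearMap.range_codRestrict _ _ _
  let ψ : LinearMap.ker T.g.hom →ₗ[S] Z2 := φ.restrict (p := LinearMap.ker T.g.hom) (q := Z2)
    (fun u hu => h1 u (LinearMap.mem_ker.1 hu))
  have hψ : Function.Bijective ψ := by
    constructor
    · intro x y h
      apply Subtype.ext
      exact hinj (congrArg Subtype.val h)
    · rintro ⟨z, hz⟩
      obtain ⟨u, hu, rfl⟩ := h1' z hz
      exact ⟨⟨u, LinearMap.mem_ker.2 hu⟩, rfl⟩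
  refine ⟨e0.trans (Submodule.Quotient.equiv _ _ (LinearEquiv.ofBijective ψ hψ) ?_)⟩
  ext z
  rw [Submodule.mem_map]
  constructor
  · rintro ⟨u, hu, rfl⟩
    rw [h3] at hu
    exact (h2 u.1).2 hu
  · intro hz
    obtain ⟨u, hu⟩ := hψ.2 z
    refine ⟨u, ?_, hu⟩
    rw [h3]
    apply (h2 u.1).1
    have : φ u.1 = z.1 := congrArg Subtype.val hu
    rw [this]
    exact hz

variable (M : Type) [AddCommGroup M] [Module S M]

open TensorProduct MonoidalCategory

theorem ext_range (i : ℕ) (u : M ⊗[S] ({F : Finset (Fin r) // F.card = i} → S)) :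
    cmp M i u ∈ BB M f i ↔ u ∈ LinearMap.range ((kd f i).lTensor M) := by
  constructor
  · rintro ⟨v, hv, hvu⟩
    obtain ⟨v', rfl⟩ := cmp_surj M (i + 1) v hv
    have h2 : cmp M i ((kd f i).lTensor M v') = kDM f (cmp M (i + 1) v') := cmp_comm f M i v'
    exact ⟨v', cmp_inj M i (h2.trans hvu)⟩
  · rintro ⟨v, rfl⟩
    rw [cmp_comm]
    exact ⟨_, cmp_mem M (i + 1) v, rfl⟩

theorem kDM_zero {v : Finset (Fin r) → M} (hv : v ∈ dg S M r 0) : kDM f v = 0 := by
  funext G
  rw [kDM_apply]
  apply Finset.sum_eq_zero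
  intro j _
  split_ifs with h
  · rfl
  · rw [hv _ (by rw [Finset.card_insert_of_notMem h]; omega), smul_zero]

theorem tor_equiv (J : Ideal S) (hJ : J = Ideal.span (Set.range f))
    (hreg : ∀ (j : Fin r) (a : S), f j * a ∈ Ideal.span (f '' {l | j < l}) →
      a ∈ Ideal.span (f '' {l | j < l})) (i : ℕ) :
    Nonempty ((((Tor (ModuleCat.{0} S) i).obj (ModuleCat.of S M)).obj
      (ModuleCat.of S (S ⧸ J))) ≃ₗ[S] HH M f i) := by
  have e1 := (Kres f J hJ hreg).isoLeftDerivedObj
    ((tensoringLeft (ModuleCat.{0} S)).obj (ModuleCat.of S M)) i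
  set K' := (((tensoringLeft (ModuleCat.{0} S)).obj (ModuleCat.of S M)).mapHomologicalComplex
    (ComplexShape.down ℕ)).obj (Kc f) with hK'
  have e2 : ((((Tor (ModuleCat.{0} S) i).obj (ModuleCat.of S M)).obj
      (ModuleCat.of S (S ⧸ J))) ≃ₗ[S] K'.homology i) := e1.toLinearEquiv
  have hd : ∀ n, K'.d (n + 1) n =
      (ModuleCat.of S M) ◁ (ModuleCat.ofHom (kd f n)) := by
    intro n
    change (ModuleCat.of S M) ◁ ((Kc f).d (n + 1) n) = _
    rw [Kc_d]
    rfl
  have hd' : ∀ n, (K'.d (n + 1) n).hom = (kd f n).lTensor M := by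
    intro n
    rw [hd]
    rfl
  rcases i with _ | i
  · have e3 : K'.homology 0 ≅ (K'.sc' 1 0 0).homology :=
      ShortComplex.homologyMapIso (K'.isoSc' 1 0 0 (by simp) (by simp))
    have hf : (K'.sc' 1 0 0).f.hom = (kd f 0).lTensor M := hd' 0
    have hg : (K'.sc' 1 0 0).g.hom = 0 := by
      have : (K'.sc' 1 0 0).g = 0 := K'.shape 0 0 (by simp)
      rw [this]
      rfl
    obtain ⟨e4⟩ := homology_equiv (K'.sc' 1 0 0) (ZZ M f 0) (BB M f 0) (cmp M 0)
      (cmp_inj M 0) (by
        intro u _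
        exact ⟨cmp_mem M 0 u, LinearMap.mem_ker.2 (kDM_zero f M (cmp_mem M 0 u))⟩) (by
        intro z hz
        obtain ⟨v, hv⟩ := cmp_surj M 0 z hz.1
        refine ⟨v, ?_, hv⟩
        rw [hg]
        rfl) (by
        intro u
        rw [hf]
        exact ext_range f M 0 u)
    exact ⟨e2.trans (e3.toLinearEquiv.trans e4)⟩
  · have e3 : K'.homology (i + 1) ≅ (K'.sc' (i + 1 + 1) (i + 1) i).homology :=
      ShortComplex.homologyMapIso (K'.isoSc' (i + 1 + 1) (i + 1) i (by simp) (by simp))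
    have hf : (K'.sc' (i + 1 + 1) (i + 1) i).f.hom = (kd f (i + 1)).lTensor M := hd' _
    have hg : (K'.sc' (i + 1 + 1) (i + 1) i).g.hom = (kd f i).lTensor M := hd' _
    obtain ⟨e4⟩ := homology_equiv (K'.sc' (i + 1 + 1) (i + 1) i) (ZZ M f (i + 1))
      (BB M f (i + 1)) (cmp M (i + 1)) (cmp_inj M (i + 1)) (by
        intro u hu
        rw [hg] at hu
        have h1 : (kd f i).lTensor M u = 0 := hu
        have h2 : cmp M i ((kd f i).lTensor M u) = kDM f (cmp M (i + 1) u) := cmp_comm f M i u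
        rw [h1, map_zero] at h2
        exact ⟨cmp_mem M (i + 1) u, LinearMap.mem_ker.2 h2.symm⟩) (by
        intro z hz
        obtain ⟨v, hv⟩ := cmp_surj M (i + 1) z hz.1
        refine ⟨v, ?_, hv⟩
        rw [hg]
        have h2 : cmp M i ((kd f i).lTensor M v) = kDM f (cmp M (i + 1) v) := cmp_comm f M i v
        rw [hv, LinearMap.mem_ker.1 hz.2] at h2
        exact cmp_inj M i (h2.trans (map_zero _).symm)) (by
        intro u
        rw [hf]
        exact ext_range f M (i + 1) u)
    exact ⟨e2.trans (e3.toLinearEquiv.trans e4)⟩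

end tor

section betti

open MvPolynomial

variable {n : ℕ}

/-- The `i`-th Betti number of an ideal `I` of `K[x_0, …, x_{n-1}]`: the dimension over `K` of
`Tor_i (I, S / (x_0, …, x_{n-1}))`. -/
noncomputable def betti (K : Type) [Field K] (I : Ideal (MvPolynomial (Fin n) K)) (i : ℕ) : ℕ :=
  Module.finrank K ((ModuleCat.restrictScalars (algebraMap K (MvPolynomial (Fin n) K))).obj
    (((Tor (ModuleCat.{0} (MvPolynomial (Fin n) K)) i).obj
      (ModuleCat.of (MvPolynomial (Fin n) K) I)).obj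
        (ModuleCat.of (MvPolynomial (Fin n) K)
          (MvPolynomial (Fin n) K ⧸ (Ideal.span (Set.range X) : Ideal (MvPolynomial (Fin n) K))))))

theorem X_regular (K : Type) [Field K] (j : Fin n) (a : MvPolynomial (Fin n) K)
    (h : X j * a ∈ Ideal.span (X '' {l : Fin n | j < l})) :
    a ∈ Ideal.span ((X : Fin n → MvPolynomial (Fin n) K) '' {l : Fin n | j < l}) := by
  rw [mem_ideal_span_X_image] at h ⊢
  intro m hm
  obtain ⟨i, hi, hi2⟩ := h (m + Finsupp.single j 1) (by
    rw [mem_support_iff, mul_comm, coeff_mul_X]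
    exact mem_support_iff.1 hm)
  refine ⟨i, hi, ?_⟩
  have hij : i ≠ j := ne_of_gt hi
  rw [Finsupp.add_apply, Finsupp.single_apply, if_neg (Ne.symm hij), add_zero] at hi2
  exact hi2

theorem betti_eq (K : Type) [Field K] (I : Ideal (MvPolynomial (Fin n) K)) (i : ℕ) :
    betti K I i = Module.finrank K (HH I (X : Fin n → MvPolynomial (Fin n) K) i) := by
  obtain ⟨e⟩ := tor_equiv (X : Fin n → MvPolynomial (Fin n) K) I _ rfl (X_regular K) i
  unfold betti
  let e' : ((ModuleCat.restrictScalars (algebraMap K (MvPolynomial (Fin n) K))).obj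
    (((Tor (ModuleCat.{0} (MvPolynomial (Fin n) K)) i).obj
      (ModuleCat.of (MvPolynomial (Fin n) K) I)).obj
        (ModuleCat.of (MvPolynomial (Fin n) K)
          (MvPolynomial (Fin n) K ⧸ (Ideal.span (Set.range X) : Ideal (MvPolynomial (Fin n) K))))))
      ≃ₗ[K] HH I (X : Fin n → MvPolynomial (Fin n) K) i :=
    { toFun := fun x => e x
      map_add' := fun x y => e.map_add x y
      map_smul' := fun c x => by
        have h := e.map_smul (algebraMap K (MvPolynomial (Fin n) K) c) x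
        exact h.trans (algebraMap_smul (MvPolynomial (Fin n) K) c (e x))
      invFun := fun y => e.symm y
      left_inv := fun x => e.left_inv x
      right_inv := fun y => e.right_inv y }
  exact e'.finrank_eq

end betti

end Pool.Agent.V11281.Bt
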