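import Mathlib
import Pool.Agent.V11281.Bt.Tor

/-!
# Betti numbers of monomial ideals as sums of homologies of upper Koszul complexes
-/

set_option autoImplicit false

open MvPolynomial

namespace Pool.Agent.V11281.Bt

open Pool.Agent.Helper816.Koszul Pool.Agent.Helper816.KM Pool.Agent.Helper816.KTor

variable {n : ℕ}

/-- the `0/1` vector of a set -/
noncomputable def ind (F : Finset (Fin n)) : Fin n →₀ ℕ :=
  Finsupp.equivFunOnFinite.symm (fun i => if i ∈ F then 1 else 0)

theorem ind_apply (F : Finset (Fin n)) (i : Fin n) : ind F i = if i ∈ F then 1 else 0 := rfl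

theorem ind_insert (G : Finset (Fin n)) (j : Fin n) (hj : j ∉ G) :
    ind (insert j G) = ind G + Finsupp.single j 1 := by
  ext i
  simp only [Finsupp.add_apply, ind_apply, Finsupp.single_apply, Finset.mem_insert]
  by_cases h : i = j
  · subst h
    simp [hj]
  · have h' : ¬ j = i := fun e => h e.symm
    simp [h, h']

theorem ind_mono {F G : Finset (Fin n)} (h : F ⊆ G) : ind F ≤ ind G := by
  intro i
  rw [ind_apply, ind_apply]
  by_cases h1 : i ∈ F
  · rw [if_pos h1, if_pos (h h1)]
  · rw [if_neg h1]; exact Nat.zero_le _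

theorem finrank_quot {A K M Q : Type*} [CommRing A] [Field K] [Algebra K A] [AddCommGroup M]
    [Module A M] [Module K M] [IsScalarTower K A M] [AddCommGroup Q] [Module K Q]
    (Z B : Submodule A M) (Ψ : M →ₗ[K] Q) (P : Submodule K Q) (hP : ∀ u ∈ Z, Ψ u ∈ P)
    (hs : ∀ z ∈ P, ∃ u ∈ Z, Ψ u = z)
    (P' : Submodule K Q) (hk : ∀ u ∈ Z, Ψ u ∈ P' ↔ u ∈ B) :
    Module.finrank K (Z ⧸ B.submoduleOf Z) = Module.finrank K (P ⧸ P'.submoduleOf P) := by
  let φ : Z →ₗ[K] (P ⧸ P'.submoduleOf P) :=
    { toFun := fun u => Submodule.Quotient.mk ⟨Ψ u.1, hP u.1 u.2⟩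
      map_add' := fun u v => by
        rw [← Submodule.Quotient.mk_add]
        congr 1
        apply Subtype.ext
        exact map_add Ψ u.1 v.1
      map_smul' := fun c u => by
        rw [← Submodule.Quotient.mk_smul]
        congr 1
        apply Subtype.ext
        exact map_smul Ψ c u.1 }
  have hφ : Function.Surjective φ := by
    intro y
    obtain ⟨⟨z, hz⟩, rfl⟩ := Submodule.Quotient.mk_surjective _ y
    obtain ⟨u, hu, rfl⟩ := hs z hz
    exact ⟨⟨u, hu⟩, rfl⟩
  have hker : LinearMap.ker φ = (B.submoduleOf Z).restrictScalars K := by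
    ext u
    rw [LinearMap.mem_ker, Submodule.restrictScalars_mem]
    show Submodule.Quotient.mk _ = 0 ↔ u.1 ∈ B
    rw [Submodule.Quotient.mk_eq_zero]
    exact hk u.1 u.2
  have e1 := φ.quotKerEquivOfSurjective hφ
  have e2 := Submodule.Quotient.restrictScalarsEquiv K (B.submoduleOf Z)
  have e3 := (Submodule.quotEquivOfEq _ _ hker).symm
  exact (e2.symm.trans (e3.trans e1)).finrank_eq

section complexes

variable (K : Type) [Field K] (Δ : Set (Finset (Fin n)))

/-- chains of a family of sets -/
def CC (i : ℕ) : Submodule K (Finset (Fin n) → K) where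
  carrier := {v | ∀ F, ¬ (F ∈ Δ ∧ F.card = i) → v F = 0}
  zero_mem' := fun _ _ => rfl
  add_mem' := by
    intro u v hu hv F hF
    rw [Pi.add_apply, hu F hF, hv F hF, add_zero]
  smul_mem' := by
    intro a u hu F hF
    rw [Pi.smul_apply, hu F hF, smul_zero]

/-- the boundary map -/
def DD : (Finset (Fin n) → K) →ₗ[K] (Finset (Fin n) → K) := kDM (fun _ : Fin n => (1 : K))

theorem DD_apply (v : Finset (Fin n) → K) (G : Finset (Fin n)) :
    DD K v G = ∑ j : Fin n, if j ∉ G then ksign K j G * v (insert j G) else 0 := by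
  show (∑ j : Fin n, if j ∉ G then (ksign K j G * 1) • v (insert j G) else 0) = _
  apply Finset.sum_congr rfl
  intro j _
  split_ifs
  · rfl
  · rw [mul_one, smul_eq_mul]

/-- cycles -/
def Zc (i : ℕ) : Submodule K (Finset (Fin n) → K) := CC K Δ i ⊓ LinearMap.ker (DD K)

/-- boundaries -/
def Bc (i : ℕ) : Submodule K (Finset (Fin n) → K) := (CC K Δ (i + 1)).map (DD K)

/-- dimension of the homology at the sets of cardinality `i` (of dimension `i - 1`) -/
noncomputable def hdim (i : ℕ) : ℕ :=
  Module.finrank K (Zc K Δ i ⧸ (Bc K Δ i).submoduleOf (Zc K Δ i))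

end complexes

section strand

variable {K : Type} [Field K] (I : Ideal (MvPolynomial (Fin n) K)) (A : Set (Fin n →₀ ℕ))
  (hA : ∀ f : MvPolynomial (Fin n) K, f ∈ I ↔ ∀ a ∈ f.support, a ∈ A)

/-- the upper Koszul complex of an up-closed set `A` at `a` -/
def Kos (A : Set (Fin n →₀ ℕ)) (a : Fin n →₀ ℕ) : Set (Finset (Fin n)) :=
  {F | ind F ≤ a ∧ a - ind F ∈ A}

open Classical in
/-- strand of degree `a` -/
noncomputable def sig (a : Fin n →₀ ℕ) : (Finset (Fin n) → I) →ₗ[K] (Finset (Fin n) → K) where
  toFun u F := if ind F ≤ a then coeff (a - ind F) (u F : MvPolynomial (Fin n) K) else 0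
  map_add' u v := by
    funext F
    simp only [Pi.add_apply]
    split_ifs
    · simp
    · simp
  map_smul' c u := by
    funext F
    simp only [Pi.smul_apply, RingHom.id_apply]
    split_ifs
    · show coeff _ ((c • (u F) : I) : MvPolynomial (Fin n) K) = _
      rw [Submodule.coe_smul_of_tower, coeff_smul]
    · simp

theorem sig_apply (a : Fin n →₀ ℕ) (u : Finset (Fin n) → I) (F : Finset (Fin n)) (h : ind F ≤ a) :
    sig I a u F = coeff (a - ind F) (u F : MvPolynomial (Fin n) K) := by
  exact if_pos h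

theorem sig_apply' (a : Fin n →₀ ℕ) (u : Finset (Fin n) → I) (F : Finset (Fin n))
    (h : ¬ ind F ≤ a) : sig I a u F = 0 := by
  exact if_neg h

include hA

theorem sig_mem (a : Fin n →₀ ℕ) (i : ℕ) {u : Finset (Fin n) → I}
    (hu : u ∈ dg (MvPolynomial (Fin n) K) I n i) : sig I a u ∈ CC K (Kos A a) i := by
  intro F hF
  by_cases h : ind F ≤ a
  · rw [sig_apply _ _ _ _ h]
    by_cases hc : F.card = i
    · by_contra hne
      apply hF
      exact ⟨⟨h, (hA _).1 (u F).2 _ (mem_support_iff.2 hne)⟩, hc⟩
    · rw [hu F hc]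
      simp
  · exact sig_apply' _ _ _ _ h

omit hA in
theorem sig_comm (a : Fin n →₀ ℕ) (u : Finset (Fin n) → I) :
    sig I a (kDM (X : Fin n → MvPolynomial (Fin n) K) u) = DD K (sig I a u) := by
  funext G
  rw [DD_apply]
  by_cases h : ind G ≤ a
  · rw [sig_apply _ _ _ _ h, kDM_apply]
    have h1 : ((∑ j : Fin n, if j ∉ G then
        (ksign (MvPolynomial (Fin n) K) j G * X j) • u (insert j G) else 0 : I) :
        MvPolynomial (Fin n) K) = ∑ j : Fin n, if j ∉ G then
        (ksign (MvPolynomial (Fin n) K) j G * X j) * (u (insert j G) : MvPolynomial (Fin n) K)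
          else 0 := by
      rw [AddSubmonoidClass.coe_finsetSum]
      apply Finset.sum_congr rfl
      intro j _
      split_ifs
      · rfl
      · rfl
    rw [h1, coeff_sum]
    apply Finset.sum_congr rfl
    intro j _
    by_cases hj : j ∈ G
    · rw [if_neg (by simpa using hj), if_neg (by simpa using hj), coeff_zero]
    · rw [if_pos hj, if_pos hj]
      have h2 : ksign (MvPolynomial (Fin n) K) j G = C (ksign K j G) := by
        unfold ksign
        rw [map_pow, map_neg, map_one]
      rw [h2, mul_assoc, coeff_C_mul, mul_comm (X j), coeff_mul_X']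
      congr 1
      by_cases h3 : ind (insert j G) ≤ a
      · rw [sig_apply _ _ _ _ h3]
        have h4 : j ∈ (a - ind G).support := by
          have := h3 j
          rw [ind_insert G j hj, Finsupp.add_apply, Finsupp.single_eq_same] at this
          rw [Finsupp.mem_support_iff, Finsupp.tsub_apply]
          omega
        rw [if_pos h4, ind_insert G j hj, tsub_tsub]
      · rw [sig_apply' _ _ _ _ h3, if_neg]
        intro h4
        apply h3
        rw [Finsupp.mem_support_iff, Finsupp.tsub_apply] at h4
        intro i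
        rw [ind_insert G j hj, Finsupp.add_apply, Finsupp.single_apply]
        have := h i
        split_ifs with h5
        · subst h5
          omega
        · omega
  · rw [sig_apply' _ _ _ _ h]
    symm
    apply Finset.sum_eq_zero
    intro j _
    split_ifs with hj
    · rfl
    · rw [sig_apply', mul_zero]
      intro h3
      exact h (le_trans (ind_mono (Finset.subset_insert j G)) h3)

theorem mono_mem {b : Fin n →₀ ℕ} (hb : b ∈ A) (c : K) : monomial b c ∈ I := by
  rw [hA]
  intro d hd
  have := support_monomial_subset hd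
  rw [Finset.mem_singleton] at this
  rw [this]
  exact hb

open Classical in
/-- realisation of chains in degree `a` -/
noncomputable def rho (a : Fin n →₀ ℕ) : (Finset (Fin n) → K) →ₗ[K] (Finset (Fin n) → I) where
  toFun v F := if h : F ∈ Kos A a then ⟨monomial (a - ind F) (v F), mono_mem I A hA h.2 (v F)⟩
    else 0
  map_add' u v := by
    funext F
    simp only [Pi.add_apply]
    split_ifs
    · apply Subtype.ext
      simp
    · simp
  map_smul' c u := by
    funext F
    simp only [Pi.smul_apply, RingHom.id_apply]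
    split_ifs
    · apply Subtype.ext
      rw [Submodule.coe_smul_of_tower]
      show monomial _ (c • u F) = c • monomial _ (u F)
      rw [smul_monomial]
    · simp

theorem rho_apply (a : Fin n →₀ ℕ) (v : Finset (Fin n) → K) (F : Finset (Fin n))
    (h : F ∈ Kos A a) : (rho I A hA a v F : MvPolynomial (Fin n) K) = monomial (a - ind F) (v F) := by
  have h1 : rho I A hA a v F = ⟨monomial (a - ind F) (v F), mono_mem I A hA h.2 (v F)⟩ := dif_pos h
  rw [h1]

theorem rho_apply' (a : Fin n →₀ ℕ) (v : Finset (Fin n) → K) (F : Finset (Fin n))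
    (h : F ∉ Kos A a) : rho I A hA a v F = 0 := by
  exact dif_neg h

theorem rho_mem (a : Fin n →₀ ℕ) (i : ℕ) {v : Finset (Fin n) → K} (hv : v ∈ CC K (Kos A a) i) :
    rho I A hA a v ∈ dg (MvPolynomial (Fin n) K) I n i := by
  intro F hF
  by_cases h : F ∈ Kos A a
  · apply Subtype.ext
    rw [rho_apply _ _ _ _ _ _ h, hv F (fun h2 => hF h2.2), map_zero]
    rfl
  · exact rho_apply' _ _ _ _ _ _ h

theorem sig_rho (a b : Fin n →₀ ℕ) (i : ℕ) {v : Finset (Fin n) → K}
    (hv : v ∈ CC K (Kos A a) i) :
    sig I b (rho I A hA a v) = if b = a then v else 0 := by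
  funext F
  by_cases hF : F ∈ Kos A a
  · by_cases hb : ind F ≤ b
    · rw [sig_apply _ _ _ _ hb, rho_apply _ _ _ _ _ _ hF, coeff_monomial]
      by_cases hab : b = a
      · subst hab
        rw [if_pos rfl, if_pos rfl]
      · rw [if_neg hab, if_neg]
        · rfl
        · intro h2
          apply hab
          have h3 := congrArg (fun t => t + ind F) h2
          rw [tsub_add_cancel_of_le hF.1, tsub_add_cancel_of_le hb] at h3
          exact h3.symm
    · rw [sig_apply' _ _ _ _ hb, if_neg]
      · rfl
      · intro h2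
        exact hb (h2 ▸ hF.1)
  · have h1 : v F = 0 := hv F (fun h2 => hF h2.1)
    have h2 : sig I b (rho I A hA a v) F = 0 := by
      by_cases hb : ind F ≤ b
      · rw [sig_apply _ _ _ _ hb, rho_apply' _ _ _ _ _ _ hF]
        simp
      · exact sig_apply' _ _ _ _ hb
    rw [h2]
    split_ifs
    · exact h1.symm
    · rfl

omit hA in
theorem sig_ext (u v : Finset (Fin n) → I) (h : ∀ a, sig I a u = sig I a v) : u = v := by
  funext F
  apply Subtype.ext
  ext c
  have h1 := congrFun (h (c + ind F)) F
  have h2 : ind F ≤ c + ind F := le_add_self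
  rw [sig_apply _ _ _ _ h2, sig_apply _ _ _ _ h2, add_tsub_cancel_right] at h1
  exact h1

/-- the set of exponents of a monomial ideal is closed upwards -/
theorem upA {a b : Fin n →₀ ℕ} (ha : a ∈ A) (h : a ≤ b) : b ∈ A := by
  have h1 : monomial a (1 : K) ∈ I := by
    rw [hA]
    intro c hc
    have := support_monomial_subset hc
    rw [Finset.mem_singleton] at this
    rw [this]
    exact ha
  have h2 : monomial b (1 : K) ∈ I := by
    have : monomial b (1 : K) = monomial (b - a) 1 * monomial a 1 := by
      rw [monomial_mul, tsub_add_cancel_of_le h, mul_one]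
    rw [this]
    exact I.mul_mem_left _ h1
  apply (hA _).1 h2
  rw [mem_support_iff, coeff_monomial, if_pos rfl]
  exact one_ne_zero

theorem Kos_down (a : Fin n →₀ ℕ) {F G : Finset (Fin n)} (hG : G ∈ Kos A a) (h : F ⊆ G) :
    F ∈ Kos A a := by
  refine ⟨le_trans (ind_mono h) hG.1, upA I A hA hG.2 ?_⟩
  exact tsub_le_tsub_left (ind_mono h) a

theorem DD_mem (a : Fin n →₀ ℕ) (i : ℕ) {v : Finset (Fin n) → K}
    (hv : v ∈ CC K (Kos A a) (i + 1)) : DD K v ∈ CC K (Kos A a) i := by
  intro F hF
  rw [DD_apply]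
  apply Finset.sum_eq_zero
  intro j _
  split_ifs with hj
  · rfl
  · rw [hv, mul_zero]
    rintro ⟨h1, h2⟩
    apply hF
    refine ⟨Kos_down I A hA a h1 (Finset.subset_insert j F), ?_⟩
    rw [Finset.card_insert_of_notMem hj] at h2
    omega

theorem rho_comm (a : Fin n →₀ ℕ) (i : ℕ) {v : Finset (Fin n) → K}
    (hv : v ∈ CC K (Kos A a) (i + 1)) :
    kDM (X : Fin n → MvPolynomial (Fin n) K) (rho I A hA a v) = rho I A hA a (DD K v) := by
  apply sig_ext I
  intro b
  rw [sig_comm, sig_rho I A hA a b (i + 1) hv, sig_rho I A hA a b i (DD_mem I A hA a i hv)]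
  split_ifs
  · rfl
  · rw [map_zero]

theorem kDM_rho_zero (a : Fin n →₀ ℕ) (i : ℕ) {v : Finset (Fin n) → K}
    (hv : v ∈ Zc K (Kos A a) i) : kDM (X : Fin n → MvPolynomial (Fin n) K) (rho I A hA a v) = 0 := by
  apply sig_ext I
  intro b
  rw [sig_comm, sig_rho I A hA a b i hv.1, map_zero]
  split_ifs
  · exact LinearMap.mem_ker.1 hv.2
  · rw [map_zero]

theorem sig_Z (a : Fin n →₀ ℕ) (i : ℕ) {u : Finset (Fin n) → I}
    (hu : u ∈ ZZ I (X : Fin n → MvPolynomial (Fin n) K) i) : sig I a u ∈ Zc K (Kos A a) i := by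
  refine ⟨sig_mem I A hA a i hu.1, LinearMap.mem_ker.2 ?_⟩
  rw [← sig_comm, LinearMap.mem_ker.1 hu.2, map_zero]

omit hA in
/-- only finitely many strands are nonzero -/
theorem sig_finite (u : Finset (Fin n) → I) : ∃ T : Finset (Fin n →₀ ℕ), ∀ a, a ∉ T →
    sig I a u = 0 := by
  classical
  refine ⟨Finset.univ.biUnion (fun F : Finset (Fin n) =>
    (u F : MvPolynomial (Fin n) K).support.image (fun c => c + ind F)), ?_⟩
  intro a ha
  funext F
  by_cases h : ind F ≤ a
  · rw [sig_apply _ _ _ _ h]
    by_contra hne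
    apply ha
    rw [Finset.mem_biUnion]
    refine ⟨F, Finset.mem_univ _, ?_⟩
    rw [Finset.mem_image]
    exact ⟨a - ind F, mem_support_iff.2 hne, tsub_add_cancel_of_le h⟩
  · exact sig_apply' _ _ _ _ h

theorem mem_BB_of (i : ℕ) {u : Finset (Fin n) → I}
    (h : ∀ a, sig I a u ∈ Bc K (Kos A a) i) : u ∈ BB I (X : Fin n → MvPolynomial (Fin n) K) i := by
  classical
  obtain ⟨T, hT⟩ := sig_finite I u
  choose w hw hw2 using h
  refine ⟨∑ a ∈ T, rho I A hA a (w a), ?_, ?_⟩
  · apply Submodule.sum_mem
    intro a _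
    exact rho_mem I A hA a (i + 1) (hw a)
  · rw [map_sum]
    apply sig_ext I
    intro b
    rw [map_sum]
    have h1 : ∀ a ∈ T, sig I b (kDM (X : Fin n → MvPolynomial (Fin n) K) (rho I A hA a (w a))) = if b = a then sig I a u else 0 := by
      intro a _
      rw [sig_comm, sig_rho I A hA a b (i + 1) (hw a)]
      split_ifs
      · exact hw2 a
      · rw [map_zero]
    rw [Finset.sum_congr rfl h1, Finset.sum_ite_eq]
    split_ifs with h2
    · rfl
    · exact (hT b h2).symm

/-- the map to the product of the strands -/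
noncomputable def sigB (B : Finset (Fin n →₀ ℕ)) :
    (Finset (Fin n) → I) →ₗ[K] (B → (Finset (Fin n) → K)) :=
  LinearMap.pi (fun a : B => sig I a.1)

omit hA in
/-- the dimension of a product of homologies -/
theorem finrank_pi_quot {ι Q : Type} [Fintype ι] [AddCommGroup Q] [Module K Q] [Module.Finite K Q]
    (Z B : ι → Submodule K Q) :
    Module.finrank K (Submodule.pi Set.univ Z ⧸
      (Submodule.pi Set.univ B).submoduleOf (Submodule.pi Set.univ Z)) =
    ∑ a : ι, Module.finrank K (Z a ⧸ (B a).submoduleOf (Z a)) := by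
  rw [← Module.finrank_pi_fintype]
  let φ : Submodule.pi Set.univ Z →ₗ[K] (∀ a : ι, (Z a ⧸ (B a).submoduleOf (Z a))) :=
    { toFun := fun u a => Submodule.Quotient.mk ⟨u.1 a, u.2 a trivial⟩
      map_add' := fun u v => rfl
      map_smul' := fun c u => rfl }
  have hφ : Function.Surjective φ := by
    intro z
    choose z' hz' using fun a : ι => Submodule.Quotient.mk_surjective
      ((B a).submoduleOf (Z a)) (z a)
    refine ⟨⟨fun a => (z' a).1, fun a _ => (z' a).2⟩, ?_⟩
    funext b
    exact hz' b
  have hk : LinearMap.ker φ = (Submodule.pi Set.univ B).submoduleOf (Submodule.pi Set.univ Z) := by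
    ext u
    rw [LinearMap.mem_ker]
    constructor
    · intro h a _
      have h1 := congrFun h a
      exact (Submodule.Quotient.mk_eq_zero ((B a).submoduleOf (Z a))).1 h1
    · intro h
      funext a
      exact (Submodule.Quotient.mk_eq_zero ((B a).submoduleOf (Z a))).2 (h a trivial)
  exact ((Submodule.quotEquivOfEq _ _ hk).symm.trans (φ.quotKerEquivOfSurjective hφ)).finrank_eq

/-- **The decomposition.** -/
theorem betti_sum (i : ℕ) (B : Finset (Fin n →₀ ℕ))
    (hB : ∀ a, a ∉ B → Zc K (Kos A a) i ≤ Bc K (Kos A a) i) :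
    betti K I i = ∑ a ∈ B, hdim K (Kos A a) i := by
  classical
  rw [betti_eq]
  have h1 : Module.finrank K (HH I (X : Fin n → MvPolynomial (Fin n) K) i) =
      Module.finrank K (Submodule.pi Set.univ (fun a : B => Zc K (Kos A a.1) i) ⧸
        (Submodule.pi Set.univ (fun a : B => Bc K (Kos A a.1) i)).submoduleOf
          (Submodule.pi Set.univ (fun a : B => Zc K (Kos A a.1) i))) := by
    apply finrank_quot (K := K) (ZZ I (X : Fin n → MvPolynomial (Fin n) K) i)
      (BB I (X : Fin n → MvPolynomial (Fin n) K) i) (sigB I B)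
    · intro u hu a _
      exact sig_Z I A hA a.1 i hu
    · intro z hz
      refine ⟨∑ a : B, rho I A hA a.1 (z a), ?_, ?_⟩
      · refine ⟨Submodule.sum_mem _ (fun a _ => rho_mem I A hA a.1 i (hz a trivial).1), ?_⟩
        apply LinearMap.mem_ker.2
        rw [map_sum]
        apply Finset.sum_eq_zero
        intro a _
        exact kDM_rho_zero I A hA a.1 i (hz a trivial)
      · funext b
        show sig I b.1 (∑ a : B, rho I A hA a.1 (z a)) = z b
        rw [map_sum, Finset.sum_eq_single b]
        · rw [sig_rho I A hA b.1 b.1 i (hz b trivial).1, if_pos rfl]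
        · intro a _ hab
          rw [sig_rho I A hA a.1 b.1 i (hz a trivial).1, if_neg (fun h => hab (Subtype.ext h.symm))]
        · intro h
          exact absurd (Finset.mem_univ b) h
    · intro u hu
      constructor
      · intro h
        apply mem_BB_of I A hA i
        intro a
        by_cases ha : a ∈ B
        · exact h ⟨a, ha⟩ trivial
        · exact hB a ha (sig_Z I A hA a i hu)
      · rintro ⟨w, hw, hwu⟩ a _
        show sig I a.1 u ∈ Bc K (Kos A a.1) i
        rw [← hwu, sig_comm]
        exact ⟨_, sig_mem I A hA a.1 (i + 1) hw, rfl⟩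
  rw [h1, finrank_pi_quot]
  unfold hdim
  exact Finset.sum_coe_sort B (fun a => Module.finrank K
    (Zc K (Kos A a) i ⧸ (Bc K (Kos A a) i).submoduleOf (Zc K (Kos A a) i)))

end strand

end Pool.Agent.V11281.Bt
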