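import Mathlib
import Pool.Agent.V11281.Bt.Strand

/-!
# Cones, and powers of monomial ideals
-/

set_option autoImplicit false

open MvPolynomial

namespace Pool.Agent.V11281.Bt

open Pool.Agent.Helper816.Koszul Pool.Agent.Helper816.KM

variable {n : ℕ}

theorem ksign_sq (K : Type) [Field K] (j : Fin n) (G : Finset (Fin n)) :
    ksign K j G * ksign K j G = 1 := by
  unfold ksign
  rw [← mul_pow]
  simp

theorem ksign_insert (K : Type) [Field K] (j l : Fin n) (G : Finset (Fin n)) (hl : l ∉ G) :
    ksign K j (insert l G) = (if l < j then -1 else 1) * ksign K j G := by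
  unfold ksign
  rw [Finset.filter_insert]
  split_ifs with h
  · rw [Finset.card_insert_of_notMem (fun h2 => hl (Finset.mem_filter.1 h2).1), pow_succ]
    ring
  · rw [one_mul]

theorem ksign_swap (K : Type) [Field K] (j l : Fin n) (G : Finset (Fin n)) (hl : l ∉ G)
    (hj : j ∉ G) (hjl : l ≠ j) :
    ksign K l (insert j G) * ksign K j (insert l G) = - (ksign K j G * ksign K l G) := by
  rw [ksign_insert K l j G hj, ksign_insert K j l G hl]
  rcases lt_or_gt_of_ne hjl with h | h
  · rw [if_neg (not_lt.2 h.le), if_pos h]; ring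
  · rw [if_pos h, if_neg (not_lt.2 h.le)]; ring

/-- A cone is acyclic. -/
theorem cone_exact (K : Type) [Field K] (Δ : Set (Finset (Fin n))) (j : Fin n)
    (h : ∀ F ∈ Δ, insert j F ∈ Δ) (i : ℕ) : Zc K Δ i ≤ Bc K Δ i := by
  classical
  intro v hv
  have hv1 := hv.1
  have hv2 : DD K v = 0 := LinearMap.mem_ker.1 hv.2
  refine ⟨fun F => if j ∈ F then ksign K j (F.erase j) * v (F.erase j) else 0, ?_, ?_⟩
  · intro F hF
    show (if j ∈ F then ksign K j (F.erase j) * v (F.erase j) else 0) = 0
    split_ifs with hj
    · rw [hv1, mul_zero]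
      rintro ⟨h1, h2⟩
      apply hF
      constructor
      · have := h _ h1
        rwa [Finset.insert_erase hj] at this
      · rw [Finset.card_erase_of_mem hj] at h2
        have := Finset.card_pos.2 ⟨j, hj⟩
        omega
    · rfl
  · funext G
    rw [DD_apply]
    by_cases hj : j ∈ G
    · have hG : insert j (G.erase j) = G := Finset.insert_erase hj
      have hjG : j ∉ G.erase j := Finset.notMem_erase j G
      have h0 := congrFun hv2 (G.erase j)
      rw [DD_apply, ← Finset.add_sum_erase _ _ (Finset.mem_univ j), if_pos hjG, hG,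
        Pi.zero_apply] at h0
      have h1 : v G = - (ksign K j (G.erase j) * ∑ x ∈ Finset.univ.erase j,
          if x ∉ G.erase j then ksign K x (G.erase j) * v (insert x (G.erase j)) else 0) := by
        have h2 := ksign_sq K j (G.erase j)
        have h3 : ksign K j (G.erase j) * (ksign K j (G.erase j) * v G) = v G := by
          rw [← mul_assoc, h2, one_mul]
        rw [← h3, eq_neg_of_add_eq_zero_left h0]
        ring
      rw [h1, Finset.mul_sum, ← Finset.sum_neg_distrib, ← Finset.add_sum_erase _ _
        (Finset.mem_univ j), if_neg (by simpa using hj), zero_add]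
      apply Finset.sum_congr rfl
      intro l hl
      have hlj : l ≠ j := (Finset.mem_erase.1 hl).1
      by_cases hlG : l ∈ G
      · rw [if_neg (by simpa using hlG), if_neg (by
          rw [not_not]; exact Finset.mem_erase.2 ⟨hlj, hlG⟩), mul_zero, neg_zero]
      · have hlG' : l ∉ G.erase j := fun h2 => hlG (Finset.mem_erase.1 h2).2
        rw [if_pos hlG, if_pos hlG']
        have e1 : j ∈ insert l G := Finset.mem_insert_of_mem hj
        have e2 : (insert l G).erase j = insert l (G.erase j) := by
          rw [Finset.erase_insert_of_ne hlj]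
        show ksign K l G * (if j ∈ insert l G then
          ksign K j ((insert l G).erase j) * v ((insert l G).erase j) else 0) = _
        rw [if_pos e1, e2]
        have e3 := ksign_swap K j l (G.erase j) hlG' hjG hlj
        rw [hG] at e3
        rw [← mul_assoc, e3]
        ring
    · rw [Finset.sum_eq_single j]
      · rw [if_pos hj]
        show ksign K j G * (if j ∈ insert j G then
          ksign K j ((insert j G).erase j) * v ((insert j G).erase j) else 0) = _
        rw [if_pos (Finset.mem_insert_self j G), Finset.erase_insert hj, ← mul_assoc, ksign_sq,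
          one_mul]
      · intro l _ hlj
        have e0 : ¬ (j ∈ insert l G) := by
          rw [Finset.mem_insert, not_or]
          exact ⟨fun h2 => hlj h2.symm, hj⟩
        by_cases hl : l ∈ G
        · rw [if_neg (by simpa using hl)]
        · rw [if_pos hl, if_neg e0, mul_zero]
      · intro h2
        exact absurd (Finset.mem_univ j) h2

/-! ## Powers of monomial ideals -/

/-- the monomial ideal generated by the monomials with exponents `m 0, …, m (r - 1)`, over `K` -/
noncomputable def monoIdeal (K : Type) [Field K] {r : ℕ} (m : Fin r → (Fin n →₀ ℕ)) :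
    Ideal (MvPolynomial (Fin n) K) :=
  Ideal.span (Set.range fun t => monomial (m t) (1 : K))

/-- the exponents of the monomials in the powers -/
def Aexp {r : ℕ} (m : Fin r → (Fin n →₀ ℕ)) : ℕ → Set (Fin n →₀ ℕ)
  | 0 => Set.univ
  | h + 1 => {a | ∃ b ∈ Aexp m h, ∃ t, b + m t ≤ a}

theorem mem_monoIdeal (K : Type) [Field K] {r : ℕ} (m : Fin r → (Fin n →₀ ℕ))
    (f : MvPolynomial (Fin n) K) :
    f ∈ monoIdeal K m ↔ ∀ a ∈ f.support, ∃ t, m t ≤ a := by
  have : monoIdeal K m = Ideal.span ((fun s => monomial s (1 : K)) '' Set.range m) := by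
    unfold monoIdeal
    rw [← Set.range_comp]
    rfl
  rw [this, mem_ideal_span_monomial_image]
  simp

theorem mem_pow (K : Type) [Field K] {r : ℕ} (m : Fin r → (Fin n →₀ ℕ)) (h : ℕ)
    (f : MvPolynomial (Fin n) K) :
    f ∈ monoIdeal K m ^ h ↔ ∀ a ∈ f.support, a ∈ Aexp m h := by
  classical
  induction h generalizing f with
  | zero => simp [Aexp]
  | succ h ih =>
    rw [pow_succ]
    constructor
    · intro hf
      refine Submodule.mul_induction_on (C := fun f => ∀ a ∈ f.support, a ∈ Aexp m (h + 1)) hf
        ?_ ?_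
      · intro g hg g' hg' a ha
        have h1 := support_mul g g' ha
        rw [Finset.mem_add] at h1
        obtain ⟨b, hb, c, hc, rfl⟩ := h1
        obtain ⟨t, ht⟩ := (mem_monoIdeal K m g').1 hg' c hc
        exact ⟨b, (ih g).1 hg b hb, t, add_le_add le_rfl ht⟩
      · intro x y hx hy a ha
        rcases Finset.mem_union.1 (support_add ha) with h1 | h1
        · exact hx a h1
        · exact hy a h1
    · intro hf
      rw [f.as_sum]
      apply Ideal.sum_mem
      intro a ha
      obtain ⟨b, hb, t, ht⟩ := hf a ha
      have e : monomial a (coeff a f) = (monomial b 1 * monomial (m t) 1) *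
          monomial (a - (b + m t)) (coeff a f) := by
        rw [monomial_mul, monomial_mul, add_tsub_cancel_of_le ht, one_mul, one_mul]
      rw [e]
      apply Ideal.mul_mem_right
      apply Ideal.mul_mem_mul
      · rw [ih]
        intro c hc
        have := support_monomial_subset hc
        rw [Finset.mem_singleton] at this
        rw [this]
        exact hb
      · exact Ideal.subset_span ⟨t, rfl⟩

theorem Aexp_up {r : ℕ} (m : Fin r → (Fin n →₀ ℕ)) (h : ℕ) {a b : Fin n →₀ ℕ}
    (ha : a ∈ Aexp m h) (hab : a ≤ b) : b ∈ Aexp m h := by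
  cases h with
  | zero => trivial
  | succ h =>
    obtain ⟨c, hc, t, ht⟩ := ha
    exact ⟨c, hc, t, ht.trans hab⟩

theorem Aexp_box {r : ℕ} (m : Fin r → (Fin n →₀ ℕ)) (N : ℕ) (hN : ∀ t i, m t i ≤ N) (h : ℕ)
    (a : Fin n →₀ ℕ) (ha : a ∈ Aexp m h) (i : Fin n) (hi : N * h < a i) :
    a - Finsupp.single i 1 ∈ Aexp m h := by
  induction h generalizing a with
  | zero => trivial
  | succ h ih =>
    obtain ⟨b, hb, t, ht⟩ := ha
    by_cases h1 : N * h < b i
    · refine ⟨_, ih b hb h1, t, ?_⟩
      intro k
      have h2 := ht k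
      rw [Finsupp.add_apply] at h2
      rw [Finsupp.add_apply, Finsupp.tsub_apply, Finsupp.tsub_apply, Finsupp.single_apply]
      split_ifs with h3
      · subst h3
        omega
      · omega
    · refine ⟨b, hb, t, ?_⟩
      intro k
      have h2 := ht k
      rw [Finsupp.add_apply] at h2
      rw [Finsupp.add_apply, Finsupp.tsub_apply, Finsupp.single_apply]
      split_ifs with h3
      · subst h3
        have h4 := hN t i
        rw [mul_add, mul_one] at hi
        omega
      · omega

/-- outside a box the upper Koszul complex of a power is a cone -/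
theorem Kos_cone {r : ℕ} (m : Fin r → (Fin n →₀ ℕ)) (N : ℕ) (hN : ∀ t i, m t i ≤ N) (h : ℕ)
    (a : Fin n →₀ ℕ) (j : Fin n) (hj : N * h < a j) (F : Finset (Fin n))
    (hF : F ∈ Kos (Aexp m h) a) : insert j F ∈ Kos (Aexp m h) a := by
  by_cases hjF : j ∈ F
  · rw [Finset.insert_eq_of_mem hjF]; exact hF
  · have h1 : (a - ind F) j = a j := by
      rw [Finsupp.tsub_apply, ind_apply, if_neg hjF]
      rfl
    have h2 := Aexp_box m N hN h _ hF.2 j (by rw [h1]; exact hj)
    refine ⟨?_, ?_⟩
    · rw [ind_insert F j hjF]
      intro k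
      have h3 := hF.1 k
      rw [Finsupp.add_apply, Finsupp.single_apply]
      split_ifs with h4
      · subst h4
        rw [ind_apply, if_neg hjF]
        omega
      · exact h3
    · rw [ind_insert F j hjF, ← tsub_tsub]
      exact h2

/-- The Betti numbers of the powers of a monomial ideal as sums over a box. -/
theorem betti_pow (K : Type) [Field K] {r : ℕ} (m : Fin r → (Fin n →₀ ℕ)) (N : ℕ)
    (hN : ∀ t i, m t i ≤ N) (h i : ℕ) (B : Finset (Fin n →₀ ℕ))
    (hB : ∀ a, (∀ j, a j ≤ N * h) → a ∈ B) :
    betti K (monoIdeal K m ^ h) i = ∑ a ∈ B, hdim K (Kos (Aexp m h) a) i := by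
  apply betti_sum _ _ (mem_pow K m h)
  intro a ha
  have : ∃ j, N * h < a j := by
    by_contra hcon
    push Not at hcon
    exact ha (hB a hcon)
  obtain ⟨j, hj⟩ := this
  exact cone_exact K _ j (fun F hF => Kos_cone m N hN h a j hj F hF) i

theorem hdim_le (K : Type) [Field K] (Δ : Set (Finset (Fin n))) (i : ℕ) :
    hdim K Δ i ≤ 2 ^ n := by
  unfold hdim
  have h1 : Module.finrank K (Zc K Δ i ⧸ (Bc K Δ i).submoduleOf (Zc K Δ i)) ≤
      Module.finrank K (Zc K Δ i) := Submodule.finrank_quotient_le _
  have h2 : Module.finrank K (Zc K Δ i) ≤ Module.finrank K (Finset (Fin n) → K) :=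
    Submodule.finrank_le _
  have h3 : Module.finrank K (Finset (Fin n) → K) = 2 ^ n := by
    rw [Module.finrank_fintype_fun_eq_card, Fintype.card_finset, Fintype.card_fin]
  omega

end Pool.Agent.V11281.Bt
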