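import Mathlib
import Pool.Agent.V11281.Bt.Pow

/-!
# Homology over `𝔽₂` is at least as large as homology over `ℚ`
-/

set_option autoImplicit false

open MvPolynomial

namespace Pool.Agent.V11281.Bt

open Pool.Agent.Helper816.Koszul Pool.Agent.Helper816.KM

variable {n : ℕ}

/-- the integer boundary matrix -/
def MI (G F : Finset (Fin n)) : ℤ :=
  ∑ j : Fin n, if j ∉ G ∧ insert j G = F then ksign ℤ j G else 0

theorem DD_eq (K : Type) [Field K] (v : Finset (Fin n) → K) (G : Finset (Fin n)) :
    DD K v G = ∑ F : Finset (Fin n), (MI G F : K) * v F := by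
  classical
  rw [DD_apply]
  unfold MI
  simp only [Int.cast_sum, Finset.sum_mul]
  rw [Finset.sum_comm]
  apply Finset.sum_congr rfl
  intro j _
  by_cases hj : j ∉ G
  · rw [if_pos hj, Finset.sum_eq_single (insert j G)]
    · rw [if_pos ⟨hj, rfl⟩]
      congr 1
      unfold ksign
      push_cast
      rfl
    · intro F _ hF
      rw [if_neg (fun h => hF h.2.symm), Int.cast_zero, zero_mul]
    · intro h
      exact absurd (Finset.mem_univ _) h
  · rw [if_neg hj]
    symm
    apply Finset.sum_eq_zero
    intro F _
    rw [if_neg (fun h => hj h.1), Int.cast_zero, zero_mul]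

/-- Vectors of integers that are independent mod `2` are independent over `ℚ`. -/
theorem indep_lift {ι κ : Type*} [Finite ι] (v : ι → κ → ℤ)
    (h : LinearIndependent (ZMod 2) (fun i k => (v i k : ZMod 2))) :
    LinearIndependent ℚ (fun i k => (v i k : ℚ)) := by
  classical
  cases nonempty_fintype ι
  rw [← LinearIndependent.iff_fractionRing ℤ ℚ]
  rw [Fintype.linearIndependent_iff] at h ⊢
  -- every integer relation is divisible by all powers of two
  have key : ∀ (m : ℕ) (g : ι → ℤ), (∀ k, ∑ i, g i * v i k = 0) → ∀ i, (2 : ℤ) ^ m ∣ g i := by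
    intro m
    induction m with
    | zero => intro g _ i; simp
    | succ m ih =>
      intro g hg i
      have h1 : ∀ i, ((g i : ℤ) : ZMod 2) = 0 := by
        apply h (fun i => ((g i : ℤ) : ZMod 2))
        funext k
        rw [Finset.sum_apply, Pi.zero_apply]
        have h2 := congrArg (fun z : ℤ => (z : ZMod 2)) (hg k)
        push_cast at h2
        exact h2
      have h3 : ∀ i, (2 : ℤ) ∣ g i := by
        intro i
        have := (ZMod.intCast_zmod_eq_zero_iff_dvd (g i) 2).1 (h1 i)
        exact_mod_cast this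
      choose g' hg' using h3
      have h4 : ∀ k, ∑ i, g' i * v i k = 0 := by
        intro k
        have h5 : 2 * ∑ i, g' i * v i k = 0 := by
          rw [← hg k, Finset.mul_sum]
          apply Finset.sum_congr rfl
          intro i _
          rw [hg' i]
          ring
        omega
      rw [hg' i, pow_succ']
      exact mul_dvd_mul_left 2 (ih g' h4 i)
  intro g hg i
  have h1 : ∀ k, ∑ i, g i * v i k = 0 := by
    intro k
    have h2 := congrFun hg k
    rw [Finset.sum_apply, Pi.zero_apply] at h2
    have h3 : ((∑ i, g i * v i k : ℤ) : ℚ) = 0 := by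
      rw [← h2]
      push_cast
      apply Finset.sum_congr rfl
      intro i _
      rw [Pi.smul_apply, zsmul_eq_mul]
    exact_mod_cast h3
  by_contra hne
  obtain ⟨m, hm⟩ : ∃ m : ℕ, |g i| < 2 ^ m := by
    refine ⟨(g i).natAbs, ?_⟩
    have h5 : (g i).natAbs < 2 ^ (g i).natAbs := Nat.lt_two_pow_self
    have h6 : ((g i).natAbs : ℤ) < 2 ^ (g i).natAbs := by exact_mod_cast h5
    rwa [Int.natCast_natAbs] at h6
  exact hne (Int.eq_zero_of_abs_lt_dvd (key m g h1 i) hm)

section

variable (K : Type) [Field K] (Δ : Set (Finset (Fin n)))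

theorem CC_span (i : ℕ) : CC K Δ i =
    Submodule.span K (Set.range fun F : {F : Finset (Fin n) // F ∈ Δ ∧ F.card = i} =>
      (Pi.single F.1 (1 : K) : Finset (Fin n) → K)) := by
  classical
  apply le_antisymm
  · intro v hv
    have h1 : v = ∑ F : Finset (Fin n), v F • (Pi.single F (1 : K) : Finset (Fin n) → K) := by
      funext G
      rw [Finset.sum_apply, Finset.sum_eq_single G]
      · simp
      · intro F _ hF
        rw [Pi.smul_apply, Pi.single_eq_of_ne (Ne.symm hF), smul_zero]
      · intro h; exact absurd (Finset.mem_univ _) h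
    rw [h1]
    apply Submodule.sum_mem
    intro F _
    by_cases hF : F ∈ Δ ∧ F.card = i
    · exact Submodule.smul_mem _ _ (Submodule.subset_span ⟨⟨F, hF⟩, rfl⟩)
    · rw [hv F hF, zero_smul]
      exact Submodule.zero_mem _
  · rw [Submodule.span_le]
    rintro _ ⟨F, rfl⟩ G hG
    exact Pi.single_eq_of_ne (fun h : G = F.1 => hG (by rw [h]; exact F.2)) _

theorem DD_single (F : Finset (Fin n)) :
    DD K (Pi.single F (1 : K)) = fun G => (MI G F : K) := by
  classical
  funext G
  rw [DD_eq, Finset.sum_eq_single F]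
  · rw [Pi.single_eq_same, mul_one]
  · intro F' _ hF'
    rw [Pi.single_eq_of_ne hF', mul_zero]
  · intro h; exact absurd (Finset.mem_univ _) h

/-- the rank of the boundary map -/
noncomputable def rk (i : ℕ) : ℕ := Module.finrank K ((CC K Δ i).map (DD K))

theorem map_span (i : ℕ) : (CC K Δ i).map (DD K) =
    Submodule.span K (Set.range fun F : {F : Finset (Fin n) // F ∈ Δ ∧ F.card = i} =>
      (fun G => (MI G F.1 : K) : Finset (Fin n) → K)) := by
  rw [CC_span, Submodule.map_span, ← Set.range_comp]
  congr 1
  congr 1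
  funext F
  exact DD_single K F.1

theorem finrank_CC (i : ℕ) : Module.finrank K (CC K Δ i) =
    Nat.card {F : Finset (Fin n) // F ∈ Δ ∧ F.card = i} := by
  classical
  rw [CC_span, finrank_span_eq_card]
  · rw [Nat.card_eq_fintype_card]
  · have h1 : LinearIndependent K (fun F : Finset (Fin n) =>
        (Pi.single F (1 : K) : Finset (Fin n) → K)) := by
      have := (Pi.basisFun K (Finset (Fin n))).linearIndependent
      convert this using 1
      funext F
      rw [Pi.basisFun_apply]
    exact h1.comp _ Subtype.val_injective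

theorem Bc_le (hΔ : ∀ F ∈ Δ, ∀ G, G ⊆ F → G ∈ Δ) (i : ℕ) : Bc K Δ i ≤ Zc K Δ i := by
  classical
  rintro _ ⟨v, hv, rfl⟩
  refine ⟨?_, LinearMap.mem_ker.2 ?_⟩
  · intro F hF
    rw [DD_apply]
    apply Finset.sum_eq_zero
    intro j _
    split_ifs with hj
    · rfl
    · rw [hv, mul_zero]
      rintro ⟨h1, h2⟩
      apply hF
      refine ⟨hΔ _ h1 _ (Finset.subset_insert j F), ?_⟩
      rw [Finset.card_insert_of_notMem hj] at h2
      omega
  · funext G
    rw [DD_apply, Pi.zero_apply]
    have h1 : ∀ j : Fin n, (if j ∉ G then ksign K j G * DD K v (insert j G) else 0) =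
        ∑ l : Fin n, if j ∉ G ∧ l ∉ G ∧ l ≠ j then
          ksign K j G * (ksign K l (insert j G) * v (insert l (insert j G))) else 0 := by
      intro j
      by_cases hj : j ∈ G
      · rw [if_neg (by simpa using hj)]
        symm
        apply Finset.sum_eq_zero
        intro l _
        rw [if_neg (fun h => h.1 hj)]
      · rw [if_pos hj, DD_apply, Finset.mul_sum]
        apply Finset.sum_congr rfl
        intro l _
        by_cases hl : l ∉ insert j G
        · rw [if_pos hl, if_pos]
          rw [Finset.mem_insert, not_or] at hl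
          exact ⟨hj, hl.2, hl.1⟩
        · rw [if_neg hl, if_neg, mul_zero]
          rintro ⟨_, h2, h3⟩
          apply hl
          rw [Finset.mem_insert, not_or]
          exact ⟨h3, h2⟩
    rw [Finset.sum_congr rfl (fun j _ => h1 j)]
    -- antisymmetry
    set T : Fin n → Fin n → K := fun j l => if j ∉ G ∧ l ∉ G ∧ l ≠ j then
          ksign K j G * (ksign K l (insert j G) * v (insert l (insert j G))) else 0 with hT
    have h2 : ∀ j l, T j l = - (if j < l then - T j l else 0) + (if l < j then T j l else 0) := by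
      intro j l
      rcases lt_trichotomy j l with h | h | h
      · rw [if_pos h, if_neg (not_lt.2 h.le), neg_neg, add_zero]
      · subst h
        rw [if_neg (lt_irrefl _), if_neg (lt_irrefl _), neg_zero, zero_add]
        exact if_neg (fun h => h.2.2 rfl)
      · rw [if_neg (not_lt.2 h.le), if_pos h, neg_zero, zero_add]
    have h3 : ∀ j l, j < l → T l j = - T j l := by
      intro j l hjl
      simp only [hT]
      by_cases hc : j ∉ G ∧ l ∉ G ∧ l ≠ j
      · rw [if_pos hc, if_pos ⟨hc.2.1, hc.1, hc.2.2.symm⟩, Finset.insert_comm j l G]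
        rw [ksign_insert K l j G hc.1, ksign_insert K j l G hc.2.1, if_pos hjl,
          if_neg (not_lt.2 hjl.le)]
        ring
      · rw [if_neg hc, if_neg (fun h => hc ⟨h.2.1, h.1, h.2.2.symm⟩), neg_zero]
    calc ∑ j, ∑ l, T j l = ∑ j, ∑ l, (- (if j < l then - T j l else 0) +
          (if l < j then T j l else 0)) := by
          apply Finset.sum_congr rfl
          intro j _
          apply Finset.sum_congr rfl
          intro l _
          exact h2 j l
      _ = - (∑ j, ∑ l, (if j < l then - T j l else 0)) +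
          ∑ j, ∑ l, (if l < j then T j l else 0) := by
          simp only [Finset.sum_add_distrib, Finset.sum_neg_distrib]
      _ = - (∑ j, ∑ l, (if j < l then T l j else 0)) +
          ∑ j, ∑ l, (if l < j then T j l else 0) := by
          congr 2
          apply Finset.sum_congr rfl
          intro j _
          apply Finset.sum_congr rfl
          intro l _
          split_ifs with h
          · rw [h3 j l h]
          · rfl
      _ = 0 := by
          rw [Finset.sum_comm, neg_add_cancel]

theorem hdim_add (hΔ : ∀ F ∈ Δ, ∀ G, G ⊆ F → G ∈ Δ) (i : ℕ) :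
    hdim K Δ i + rk K Δ i + rk K Δ (i + 1) =
      Nat.card {F : Finset (Fin n) // F ∈ Δ ∧ F.card = i} := by
  have h1 : Module.finrank K (Zc K Δ i ⧸ (Bc K Δ i).submoduleOf (Zc K Δ i)) +
      Module.finrank K ((Bc K Δ i).submoduleOf (Zc K Δ i)) = Module.finrank K (Zc K Δ i) :=
    Submodule.finrank_quotient_add_finrank _
  have h2 : Module.finrank K ((Bc K Δ i).submoduleOf (Zc K Δ i)) = rk K Δ (i + 1) :=
    (Submodule.submoduleOfEquivOfLe (Bc_le K Δ hΔ i)).finrank_eq
  have h3 : Module.finrank K (Zc K Δ i) + rk K Δ i = Module.finrank K (CC K Δ i) := by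
    have h4 := LinearMap.finrank_range_add_finrank_ker ((DD K).domRestrict (CC K Δ i))
    have h5 : LinearMap.range ((DD K).domRestrict (CC K Δ i)) = (CC K Δ i).map (DD K) := by
      rw [LinearMap.range_domRestrict]
    have h6 : Module.finrank K (LinearMap.ker ((DD K).domRestrict (CC K Δ i))) =
        Module.finrank K (Zc K Δ i) := by
      have e : LinearMap.ker ((DD K).domRestrict (CC K Δ i)) =
          (Zc K Δ i).submoduleOf (CC K Δ i) := by
        ext v
        constructor
        · intro hv
          exact ⟨v.2, hv⟩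
        · intro hv
          exact hv.2
      rw [e]
      exact (Submodule.submoduleOfEquivOfLe (inf_le_left : Zc K Δ i ≤ CC K Δ i)).finrank_eq
    rw [h5, h6] at h4
    unfold rk
    omega
  rw [← finrank_CC K Δ i]
  unfold hdim
  omega

end

theorem rk_le (Δ : Set (Finset (Fin n))) (i : ℕ) : rk (ZMod 2) Δ i ≤ rk ℚ Δ i := by
  classical
  unfold rk
  rw [map_span, map_span]
  set v : {F : Finset (Fin n) // F ∈ Δ ∧ F.card = i} → Finset (Fin n) → ℤ :=
    fun F G => MI G F.1 with hv
  obtain ⟨κ, a, ha, hspan, hli⟩ := exists_linearIndependent' (ZMod 2)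
    (fun F : {F : Finset (Fin n) // F ∈ Δ ∧ F.card = i} =>
      (fun G => (MI G F.1 : ZMod 2) : Finset (Fin n) → ZMod 2))
  have : Finite κ := Finite.of_injective a ha
  cases nonempty_fintype κ
  rw [← hspan, finrank_span_eq_card hli]
  have h1 : LinearIndependent ℚ (fun k G => ((v (a k) G : ℤ) : ℚ)) :=
    indep_lift (fun k => v (a k)) hli
  rw [← finrank_span_eq_card h1]
  apply Submodule.finrank_mono
  apply Submodule.span_mono
  rintro _ ⟨k, rfl⟩
  exact ⟨a k, rfl⟩

theorem hdim_mono (Δ : Set (Finset (Fin n))) (hΔ : ∀ F ∈ Δ, ∀ G, G ⊆ F → G ∈ Δ) (i : ℕ) :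
    hdim ℚ Δ i ≤ hdim (ZMod 2) Δ i := by
  have h1 := hdim_add ℚ Δ hΔ i
  have h2 := hdim_add (ZMod 2) Δ hΔ i
  have h3 := rk_le Δ i
  have h4 := rk_le Δ (i + 1)
  omega

end Pool.Agent.V11281.Bt
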