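import Mathlib
import Pool.Agent.V11281.Bt.Rank

/-!
# An ideal whose powers contain many projective planes
-/

set_option autoImplicit false

open MvPolynomial

namespace Pool.Agent.V11281.Bt

open Pool.Agent.Helper816.Koszul Pool.Agent.Helper816.KM

/-- the ten facets of the six-vertex triangulation of the projective plane -/
def fac : Fin 10 → Finset (Fin 6) :=
  ![{0, 1, 4}, {0, 1, 5}, {0, 2, 3}, {0, 2, 5}, {0, 3, 4}, {1, 2, 3}, {1, 2, 4}, {1, 3, 5},
    {2, 4, 5}, {3, 4, 5}]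

/-- the exponent vectors of the sixteen generators -/
def ex : Fin 16 → Fin 6 → ℕ :=
  ![![3, 0, 0, 0, 0, 0],
    ![0, 3, 0, 0, 0, 0],
    ![0, 0, 3, 0, 0, 0],
    ![0, 0, 0, 3, 0, 0],
    ![0, 0, 0, 0, 3, 0],
    ![0, 0, 0, 0, 0, 3],
    ![1, 1, 2, 2, 1, 2],
    ![1, 1, 2, 2, 2, 1],
    ![1, 2, 1, 1, 2, 2],
    ![1, 2, 1, 2, 2, 1],
    ![1, 2, 2, 1, 1, 2],
    ![2, 1, 1, 1, 2, 2],
    ![2, 1, 1, 2, 1, 2],
    ![2, 1, 2, 1, 2, 1],
    ![2, 2, 1, 2, 1, 1],
    ![2, 2, 2, 1, 1, 1]]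

/-- the exponent vectors of the sixteen generators -/
noncomputable def gen (t : Fin 16) : Fin 6 →₀ ℕ := Finsupp.equivFunOnFinite.symm (ex t)

theorem gen_apply (t : Fin 16) (i : Fin 6) : gen t i = ex t i := rfl

theorem ex_cases : ∀ t : Fin 16, (∃ i : Fin 6, ∀ k, ex t k = if k = i then 3 else 0) ∨
    (∃ j : Fin 10, ∀ k, ex t k = if k ∈ fac j then 1 else 2) := by decide

theorem ex_cube : ∀ i : Fin 6, ∃ t : Fin 16, ∀ k, ex t k = if k = i then 3 else 0 := by decide

theorem ex_fac : ∀ j : Fin 10, ∃ t : Fin 16, ∀ k, ex t k = if k ∈ fac j then 1 else 2 := by decide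

theorem ex_le : ∀ (t : Fin 16) (k : Fin 6), ex t k ≤ 3 := by decide

theorem fac_deg : ∀ j : Fin 10, ∑ k : Fin 6, (if k ∈ fac j then 1 else 2 : ℕ) = 9 := by decide

theorem fac_card : ∀ j : Fin 10, (fac j).card = 3 := by decide

theorem fac_inj : ∀ s t : Fin 10, fac s = fac t → s = t := by decide

theorem sum_ite_three (i : Fin 6) : ∑ k : Fin 6, (if k = i then 3 else 0 : ℕ) = 3 := by
  rw [Finset.sum_ite_eq' Finset.univ i, if_pos (Finset.mem_univ i)]

theorem Aexp_cases (h : ℕ) (a : Fin 6 →₀ ℕ) (ha : a ∈ Aexp gen h) :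
    (∃ p : Fin 6 → ℕ, ∑ i, p i = h ∧ ∀ i, 3 * p i ≤ a i) ∨
    (∃ p : Fin 6 → ℕ, ∃ j, ∑ i, p i + 1 = h ∧
      ∀ i, 3 * p i + (if i ∈ fac j then 1 else 2) ≤ a i) ∨
    3 * h + 12 ≤ ∑ i, a i := by
  induction h generalizing a with
  | zero => exact Or.inl ⟨fun _ => 0, by simp, fun i => by simp⟩
  | succ h ih =>
    obtain ⟨b, hb, t, ht⟩ := ha
    have ht' : ∀ k, b k + ex t k ≤ a k := fun k => ht k
    have hsum : ∑ k, b k + ∑ k, ex t k ≤ ∑ k, a k := by
      rw [← Finset.sum_add_distrib]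
      exact Finset.sum_le_sum (fun k _ => ht' k)
    rcases ex_cases t with ⟨i, hi⟩ | ⟨j, hj⟩
    · have hs3 : ∑ k, ex t k = 3 := by
        rw [← sum_ite_three i]
        exact Finset.sum_congr rfl (fun k _ => hi k)
      rcases ih b hb with ⟨p, hp1, hp2⟩ | ⟨p, j, hp1, hp2⟩ | h3
      · refine Or.inl ⟨fun k => p k + if k = i then 1 else 0, ?_, ?_⟩
        · rw [Finset.sum_add_distrib, hp1, Finset.sum_ite_eq' Finset.univ i,
            if_pos (Finset.mem_univ i)]
        · intro k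
          have h1 := hp2 k
          have h2 := ht' k
          rw [hi k] at h2
          by_cases hk : k = i
          · simp only [if_pos hk] at h2 ⊢
            omega
          · simp only [if_neg hk] at h2 ⊢
            omega
      · refine Or.inr (Or.inl ⟨fun k => p k + if k = i then 1 else 0, j, ?_, ?_⟩)
        · rw [Finset.sum_add_distrib, Finset.sum_ite_eq' Finset.univ i,
            if_pos (Finset.mem_univ i)]
          omega
        · intro k
          have h1 := hp2 k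
          have h2 := ht' k
          rw [hi k] at h2
          by_cases hk : k = i
          · simp only [if_pos hk] at h2 ⊢
            omega
          · simp only [if_neg hk] at h2 ⊢
            omega
      · refine Or.inr (Or.inr ?_)
        omega
    · have hs9 : ∑ k, ex t k = 9 := by
        rw [← fac_deg j]
        exact Finset.sum_congr rfl (fun k _ => hj k)
      rcases ih b hb with ⟨p, hp1, hp2⟩ | ⟨p, j', hp1, hp2⟩ | h3
      · refine Or.inr (Or.inl ⟨p, j, by omega, ?_⟩)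
        intro k
        have h1 := hp2 k
        have h2 := ht' k
        rw [hj k] at h2
        omega
      · refine Or.inr (Or.inr ?_)
        have h4 : 3 * ∑ k, p k + 9 ≤ ∑ k, b k := by
          rw [← fac_deg j', Finset.mul_sum, ← Finset.sum_add_distrib]
          exact Finset.sum_le_sum (fun k _ => hp2 k)
        omega
      · refine Or.inr (Or.inr ?_)
        omega

theorem Aexp_deg (h : ℕ) (a : Fin 6 →₀ ℕ) (ha : a ∈ Aexp gen h) : 3 * h ≤ ∑ i, a i := by
  rcases Aexp_cases h a ha with ⟨p, hp1, hp2⟩ | ⟨p, j, hp1, hp2⟩ | h3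
  · rw [← hp1, Finset.mul_sum]
    exact Finset.sum_le_sum (fun k _ => hp2 k)
  · have h4 : 3 * ∑ k, p k + 9 ≤ ∑ k, a k := by
      rw [← fac_deg j, Finset.mul_sum, ← Finset.sum_add_distrib]
      exact Finset.sum_le_sum (fun k _ => hp2 k)
    omega
  · omega

theorem Aexp_of (h : ℕ) (p : Fin 6 → ℕ) (a : Fin 6 →₀ ℕ) (hp : h ≤ ∑ i, p i)
    (hpa : ∀ i, 3 * p i ≤ a i) : a ∈ Aexp gen h := by
  induction h generalizing p a with
  | zero => trivial
  | succ h ih =>
    obtain ⟨i, hi⟩ : ∃ i, 0 < p i := by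
      by_contra hcon
      push Not at hcon
      have : ∑ i, p i = 0 := Finset.sum_eq_zero (fun i _ => Nat.le_zero.1 (hcon i))
      omega
    obtain ⟨t, ht⟩ := ex_cube i
    have hsum : ∑ k, (p k - if k = i then 1 else 0) + 1 = ∑ k, p k := by
      have h1 : ∑ k, (p k - if k = i then 1 else 0) + ∑ k, (if k = i then 1 else 0) =
          ∑ k, p k := by
        rw [← Finset.sum_add_distrib]
        apply Finset.sum_congr rfl
        intro k _
        split_ifs with hk
        · subst hk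
          omega
        · omega
      rwa [Finset.sum_ite_eq' Finset.univ i, if_pos (Finset.mem_univ i)] at h1
    refine ⟨Finsupp.equivFunOnFinite.symm (fun k => 3 * (p k - if k = i then 1 else 0)),
      ih (fun k => p k - if k = i then 1 else 0) _ (by omega) (fun k => le_rfl), t, ?_⟩
    intro k
    have h1 := hpa k
    show 3 * (p k - if k = i then 1 else 0) + ex t k ≤ a k
    rw [ht k]
    split_ifs with hk
    · subst hk
      omega
    · omega

theorem Aexp_of' (h : ℕ) (p : Fin 6 → ℕ) (j : Fin 10) (a : Fin 6 →₀ ℕ) (hp : ∑ i, p i = h)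
    (hpa : ∀ i, 3 * p i + (if i ∈ fac j then 1 else 2) ≤ a i) : a ∈ Aexp gen (h + 1) := by
  obtain ⟨t, ht⟩ := ex_fac j
  refine ⟨Finsupp.equivFunOnFinite.symm (fun k => 3 * p k),
    Aexp_of h p _ hp.ge (fun k => le_rfl), t, ?_⟩
  intro k
  have h1 := hpa k
  show 3 * p k + ex t k ≤ a k
  rw [ht k]
  exact h1

theorem Aexp_big (h : ℕ) (b : Fin 6 →₀ ℕ) (hb : 3 * h + 10 ≤ ∑ i, b i) : b ∈ Aexp gen h := by
  apply Aexp_of h (fun i => b i / 3)
  · have h1 : ∑ i, b i ≤ ∑ i, (3 * (b i / 3) + 2) := by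
      apply Finset.sum_le_sum
      intro i _
      omega
    rw [Finset.sum_add_distrib, ← Finset.mul_sum, Finset.sum_const, Finset.card_univ,
      Fintype.card_fin, smul_eq_mul] at h1
    omega
  · intro i
    omega

theorem sum_ind (F : Finset (Fin 6)) : ∑ i, ind F i = F.card := by
  simp only [ind_apply]
  rw [Finset.sum_boole]
  simp

theorem sum_tsub (F : Finset (Fin 6)) (a : Fin 6 →₀ ℕ) (h : ind F ≤ a) :
    ∑ i, (a - ind F) i + F.card = ∑ i, a i := by
  rw [← sum_ind F, ← Finset.sum_add_distrib]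
  apply Finset.sum_congr rfl
  intro i _
  rw [Finsupp.tsub_apply]
  have := h i
  omega

theorem card_le_six (F : Finset (Fin 6)) : F.card ≤ 6 := by
  have := Finset.card_le_univ F
  rwa [Fintype.card_fin] at this

/-- outside a window the strand is exact -/
theorem exact_outside (K : Type) [Field K] (h : ℕ) (a : Fin 6 →₀ ℕ)
    (ha : ¬ (3 * h ≤ ∑ i, a i ∧ ∑ i, a i < 3 * h + 16)) (i : ℕ) :
    Zc K (Kos (Aexp gen h) a) i ≤ Bc K (Kos (Aexp gen h) a) i := by
  by_cases h1 : 3 * h ≤ ∑ i, a i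
  · have h2 : 3 * h + 16 ≤ ∑ i, a i := by
      by_contra hcon
      exact ha ⟨h1, by omega⟩
    obtain ⟨j, hj⟩ : ∃ j, 0 < a j := by
      by_contra hcon
      push Not at hcon
      have : ∑ i, a i = 0 := Finset.sum_eq_zero (fun i _ => Nat.le_zero.1 (hcon i))
      omega
    have h3 : ∀ F : Finset (Fin 6), ind F ≤ a → F ∈ Kos (Aexp gen h) a := by
      intro F hF
      refine ⟨hF, Aexp_big h _ ?_⟩
      have h4 := sum_tsub F a hF
      have h5 := card_le_six F
      omega
    apply cone_exact K _ j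
    intro F hF
    apply h3
    by_cases hjF : j ∈ F
    · rw [Finset.insert_eq_of_mem hjF]
      exact hF.1
    · rw [ind_insert F j hjF]
      intro k
      have h3 := hF.1 k
      rw [Finsupp.add_apply, Finsupp.single_apply]
      split_ifs with h4
      · subst h4
        rw [ind_apply, if_neg hjF]
        omega
      · exact h3
  · have h2 : ∀ F, F ∉ Kos (Aexp gen h) a := by
      intro F hF
      have h3 := Aexp_deg h _ hF.2
      have h4 := sum_tsub F a hF.1
      omega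
    intro v hv
    have : v = 0 := by
      funext F
      exact hv.1 F (fun h3 => h2 F h3.1)
    rw [this]
    exact Submodule.zero_mem _

theorem hdim_eq_zero (K : Type) [Field K] {n : ℕ} (Δ : Set (Finset (Fin n))) (i : ℕ)
    (h : Zc K Δ i ≤ Bc K Δ i) : hdim K Δ i = 0 := by
  unfold hdim
  have : Subsingleton (Zc K Δ i ⧸ (Bc K Δ i).submoduleOf (Zc K Δ i)) := by
    rw [Submodule.Quotient.subsingleton_iff]
    exact Submodule.submoduleOf_eq_top.2 h
  exact Module.finrank_zero_of_subsingleton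

/-- the projective plane -/
def RP : Set (Finset (Fin 6)) := {F | ∃ j, F ⊆ fac j}

/-- the degree attached to `q` -/
noncomputable def dq (q : Fin 6 →₀ ℕ) : Fin 6 →₀ ℕ :=
  Finsupp.equivFunOnFinite.symm (fun i => 3 * q i + 2)

theorem dq_apply (q : Fin 6 →₀ ℕ) (i : Fin 6) : dq q i = 3 * q i + 2 := rfl

theorem Kos_dq (h : ℕ) (q : Fin 6 →₀ ℕ) (hq : ∑ i, q i = h) :
    Kos (Aexp gen (h + 1)) (dq q) = RP := by
  have hle : ∀ F : Finset (Fin 6), ind F ≤ dq q := by
    intro F i
    rw [ind_apply, dq_apply]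
    split_ifs <;> omega
  have hsum : ∑ i, dq q i = 3 * h + 12 := by
    simp only [dq_apply]
    rw [Finset.sum_add_distrib, ← Finset.mul_sum, Finset.sum_const, Finset.card_univ,
      Fintype.card_fin, smul_eq_mul, hq]
  ext F
  constructor
  · rintro ⟨h1, h2⟩
    have h3 := sum_tsub F (dq q) h1
    rcases Aexp_cases _ _ h2 with ⟨p, hp1, hp2⟩ | ⟨p, j, hp1, hp2⟩ | h4
    · exfalso
      have h5 : ∀ i, p i ≤ q i := by
        intro i
        have := hp2 i
        rw [Finsupp.tsub_apply, dq_apply] at this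
        omega
      have h6 : ∑ i, p i ≤ ∑ i, q i := Finset.sum_le_sum (fun i _ => h5 i)
      omega
    · have h5 : ∀ i, p i ≤ q i := by
        intro i
        have := hp2 i
        rw [Finsupp.tsub_apply, dq_apply] at this
        split_ifs at this <;> omega
      have h6 : ∀ i ∈ Finset.univ, p i = q i := by
        apply (Finset.sum_eq_sum_iff_of_le (fun i _ => h5 i)).1
        omega
      refine ⟨j, fun i hi => ?_⟩
      by_contra hcon
      have h7 := hp2 i
      rw [Finsupp.tsub_apply, dq_apply, ind_apply, if_pos hi, if_neg hcon,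
        h6 i (Finset.mem_univ i)] at h7
      omega
    · exfalso
      omega
  · rintro ⟨j, hj⟩
    refine ⟨hle F, Aexp_of' h (fun i => q i) j _ hq ?_⟩
    intro i
    rw [Finsupp.tsub_apply, dq_apply, ind_apply]
    by_cases hi : i ∈ fac j
    · rw [if_pos hi]
      split_ifs <;> omega
    · rw [if_neg hi, if_neg (fun h => hi (hj h))]
      omega

theorem RP_down : ∀ F ∈ RP, ∀ G, G ⊆ F → G ∈ RP := by
  rintro F ⟨j, hj⟩ G hG
  exact ⟨j, hG.trans hj⟩

theorem RP_three (F : Finset (Fin 6)) (hF : F ∈ RP) (hc : F.card = 3) : ∃ j, F = fac j := by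
  obtain ⟨j, hj⟩ := hF
  exact ⟨j, Finset.eq_of_subset_of_card_le hj (by rw [fac_card j, hc])⟩

/-- the edges -/
def edge : Fin 15 → Finset (Fin 6) :=
  ![{0, 1}, {0, 2}, {0, 3}, {0, 4}, {0, 5}, {1, 2}, {1, 3}, {1, 4}, {1, 5}, {2, 3}, {2, 4},
    {2, 5}, {3, 4}, {3, 5}, {4, 5}]

/-- twice a left inverse of the boundary map of triangles -/
def LL : Fin 10 → Fin 15 → ℤ :=
  ![![0, 0, -1, -1, 0, 1, 0, 1, 0, -1, 0, 0, 0, 0, 0],
  ![2, 0, 1, 1, 0, -1, 0, -1, 0, 1, 0, 0, 0, 0, 0],
  ![0, 0, -1, -1, 0, -1, 0, -1, 0, 1, 0, 0, 0, 0, 0],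
  ![0, 2, 1, 1, 0, 1, 0, 1, 0, -1, 0, 0, 0, 0, 0],
  ![0, 0, 1, -1, 0, -1, 0, -1, 0, 1, 0, 0, 0, 0, 0],
  ![0, 0, 1, 1, 0, 1, 0, 1, 0, 1, 0, 0, 0, 0, 0],
  ![0, 0, -1, -1, 0, 1, 0, -1, 0, -1, 0, 0, 0, 0, 0],
  ![0, 0, 1, 1, 0, 1, 2, 1, 0, 1, 0, 0, 0, 0, 0],
  ![0, 0, 1, 1, 0, -1, 0, 1, 0, 1, 2, 0, 0, 0, 0],
  ![0, 0, -1, 1, 0, 1, 0, 1, 0, -1, 0, 0, 2, 0, 0]]

theorem LL_MI : ∀ s t : Fin 10, ∑ e : Fin 15, LL s e * MI (edge e) (fac t) =
    if s = t then 2 else 0 := by decide +kernel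

/-- a chain supported on the triangles -/
theorem sum_fac {R : Type} [AddCommMonoid R] (f : Finset (Fin 6) → R)
    (hf : ∀ F, ¬ (F ∈ RP ∧ F.card = 3) → f F = 0) :
    ∑ F : Finset (Fin 6), f F = ∑ t : Fin 10, f (fac t) := by
  classical
  rw [← Finset.sum_image (s := Finset.univ) (g := fac) (f := f)
    (fun s _ t _ h => fac_inj s t h)]
  symm
  apply Finset.sum_subset (Finset.subset_univ _)
  intro F _ hF
  apply hf
  rintro ⟨h1, h2⟩
  obtain ⟨j, rfl⟩ := RP_three F h1 h2
  exact hF (Finset.mem_image.2 ⟨j, Finset.mem_univ j, rfl⟩)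

theorem RP_rat : hdim ℚ RP 3 = 0 := by
  apply hdim_eq_zero
  intro v hv
  have h1 : ∀ G, ∑ t : Fin 10, (MI G (fac t) : ℚ) * v (fac t) = 0 := by
    intro G
    have h2 := congrFun (LinearMap.mem_ker.1 hv.2) G
    rw [DD_eq, sum_fac] at h2
    · exact h2
    · intro F hF
      rw [hv.1 F hF, mul_zero]
  have h3 : ∀ s : Fin 10, v (fac s) = 0 := by
    intro s
    have h4 : ∑ e : Fin 15, (LL s e : ℚ) * ∑ t : Fin 10, (MI (edge e) (fac t) : ℚ) * v (fac t) =
        0 := by
      apply Finset.sum_eq_zero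
      intro e _
      rw [h1, mul_zero]
    have h5 : ∑ e : Fin 15, (LL s e : ℚ) * ∑ t : Fin 10, (MI (edge e) (fac t) : ℚ) * v (fac t) =
        ∑ t : Fin 10, ((∑ e : Fin 15, LL s e * MI (edge e) (fac t) : ℤ) : ℚ) * v (fac t) := by
      push_cast
      simp only [Finset.mul_sum, Finset.sum_mul]
      rw [Finset.sum_comm]
      apply Finset.sum_congr rfl
      intro t _
      apply Finset.sum_congr rfl
      intro e _
      ring
    rw [h4, Finset.sum_eq_single s] at h5
    · rw [LL_MI, if_pos rfl] at h5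
      push_cast at h5
      linarith
    · intro t _ hts
      rw [LL_MI, if_neg (Ne.symm hts)]
      simp
    · intro h; exact absurd (Finset.mem_univ s) h
  have h6 : v = 0 := by
    funext F
    by_cases hF : F ∈ RP ∧ F.card = 3
    · obtain ⟨j, rfl⟩ := RP_three F hF.1 hF.2
      exact h3 j
    · exact hv.1 F hF
  rw [h6]
  exact Submodule.zero_mem _

theorem MI_even : ∀ G : Finset (Fin 6), ∃ c : ℤ, ∑ t : Fin 10, MI G (fac t) = 2 * c := by
  have : ∀ G : Finset (Fin 6), (∑ t : Fin 10, MI G (fac t)) % 2 = 0 := by decide +kernel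
  intro G
  exact ⟨_, (Int.mul_ediv_cancel' (Int.dvd_of_emod_eq_zero (this G))).symm⟩

theorem RP_two : 1 ≤ hdim (ZMod 2) RP 3 := by
  classical
  set v : Finset (Fin 6) → ZMod 2 := fun F => if F ∈ RP ∧ F.card = 3 then 1 else 0 with hv
  have hv0 : ∀ F, ¬ (F ∈ RP ∧ F.card = 3) → v F = 0 := fun F hF => if_neg hF
  have hv1 : ∀ t, v (fac t) = 1 := fun t => if_pos ⟨⟨t, Finset.Subset.refl _⟩, fac_card t⟩
  have hvZ : v ∈ Zc (ZMod 2) RP 3 := by
    refine ⟨hv0, LinearMap.mem_ker.2 ?_⟩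
    funext G
    rw [DD_eq, sum_fac]
    · have h1 : ∀ t ∈ (Finset.univ : Finset (Fin 10)), (MI G (fac t) : ZMod 2) * v (fac t) =
          (MI G (fac t) : ZMod 2) := by
        intro t _
        rw [hv1, mul_one]
      rw [Finset.sum_congr rfl h1]
      obtain ⟨c, hc⟩ := MI_even G
      have h2 := congrArg (fun z : ℤ => (z : ZMod 2)) hc
      push_cast at h2
      rw [h2]
      have h3 : (2 : ZMod 2) = 0 := by decide
      rw [h3, zero_mul]
      rfl
    · intro F hF
      rw [hv0 F hF, mul_zero]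
  have hB : Bc (ZMod 2) RP 3 = ⊥ := by
    have : CC (ZMod 2) RP (3 + 1) = ⊥ := by
      rw [eq_bot_iff]
      intro u hu
      have : u = 0 := by
        funext F
        apply hu F
        rintro ⟨⟨j, hj⟩, h2⟩
        have := Finset.card_le_card hj
        rw [fac_card] at this
        omega
      rw [this]
      exact Submodule.zero_mem _
    unfold Bc
    rw [this, Submodule.map_bot]
  unfold hdim
  rw [Nat.one_le_iff_ne_zero]
  intro h0
  have h1 : Subsingleton (Zc (ZMod 2) RP 3 ⧸ (Bc (ZMod 2) RP 3).submoduleOf (Zc (ZMod 2) RP 3)) :=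
    Module.finrank_zero_iff.1 h0
  rw [Submodule.Quotient.subsingleton_iff, Submodule.submoduleOf_eq_top, hB] at h1
  have h2 := h1 hvZ
  rw [Submodule.mem_bot] at h2
  have h3 := congrFun h2 (fac 0)
  rw [hv1] at h3
  exact absurd h3 (by decide)

end Pool.Agent.V11281.Bt
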